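import Pool.Agent.V11219.MomentOp4

/-!
# MP_a4cf75_mp, Q2: `N_{t,k}(d, d_E)` is not non-increasing in `k`

`N t k d dE ψ` is the squared Hilbert-Schmidt norm of the `k`-th power of the `t`-th moment
operator of the ensemble `cHaar(d, d_E)` (the fixed unit vector `|0⟩` of the environment is `ψ`;
`V` is distributed according to the Haar probability measure `haarU` of `U(d d_E)`).

For `t = 2` and `d, d_E ≥ 2` we compute, for every `k ≥ 1`,
`N_{2,k}(d, d_E) = 1 + λ^{2k} + C (1 - λ^k)^2`, with `λ = d_E (d² - 1) / (d² d_E² - 1)` and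
`C = (d² - 1) / (d² d_E + 1)²`, and deduce that `k ↦ N_{2,k}(d, d_E)` is strictly increasing for
large `k`, for every `d, d_E ≥ 2`; for `d = d_E = 2` it is strictly increasing from `k = 4` on.
-/

open Matrix MeasureTheory

namespace Pool.Agent.Results.MP_a4cf75_mp.NotMonotone

open Pool.Agent.V11219.MomentOp

lemma step {q l C : ℝ} (hq : 0 < q) (_hl0 : 0 < l) (hl1 : l < 1) (_hC : 0 < C)
    (h : (q + l * q) * (1 + C) < 2 * C) :
    1 + q ^ 2 + C * (1 - q) ^ 2 < 1 + (l * q) ^ 2 + C * (1 - l * q) ^ 2 := by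
  have h1 : 0 < q - l * q := by nlinarith
  nlinarith [mul_pos h1 (sub_pos.2 h)]

lemma lam_pos {d dE : ℕ} (hd : 2 ≤ d) (hE : 2 ≤ dE) : 0 < lam d dE ∧ lam d dE < 1 := by
  have h1 : (2 : ℝ) ≤ d := by exact_mod_cast hd
  have h2 : (2 : ℝ) ≤ dE := by exact_mod_cast hE
  have h3 : (0 : ℝ) < (d : ℝ) ^ 2 - 1 := by nlinarith
  have h4 : (0 : ℝ) < ((d : ℝ) * dE) ^ 2 - 1 := by
    have : (4 : ℝ) ≤ (d : ℝ) * dE := by nlinarith
    nlinarith
  constructor
  · unfold lam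
    positivity
  · unfold lam
    rw [div_lt_one h4]
    have : (d : ℝ) ^ 2 * dE ≤ (d : ℝ) ^ 2 * dE * dE := by
      have : 0 ≤ (d : ℝ) ^ 2 * dE := by positivity
      nlinarith
    nlinarith

lemma CC_pos {d dE : ℕ} (hd : 2 ≤ d) : 0 < CC d dE := by
  have h1 : (2 : ℝ) ≤ d := by exact_mod_cast hd
  have h3 : (0 : ℝ) < (d : ℝ) ^ 2 - 1 := by nlinarith
  unfold CC
  positivity

/-- **Main result.** For all `d, d_E ≥ 2` and every unit vector `ψ` of the environment: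
a closed formula for `N_{2,k}(d, d_E)`, `k ≥ 1`; it is eventually strictly increasing in `k`
(so monotonicity in `k` fails for every `d, d_E ≥ 2`); for `d = d_E = 2` it is strictly
increasing from `k = 4` on. In particular `N_{2,5}(2,2) > N_{2,4}(2,2)`. -/
theorem result :
    (∀ d dE : ℕ, 2 ≤ d → 2 ≤ dE → ∀ ψ : Fin dE → ℂ, ∑ x, ‖ψ x‖ ^ 2 = 1 →
      (∀ k : ℕ, 1 ≤ k → N 2 k d dE ψ =
        1 + ((dE * ((d : ℝ) ^ 2 - 1) / (((d : ℝ) * dE) ^ 2 - 1)) ^ k) ^ 2 +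
          ((d : ℝ) ^ 2 - 1) / ((d : ℝ) ^ 2 * dE + 1) ^ 2 *
            (1 - (dE * ((d : ℝ) ^ 2 - 1) / (((d : ℝ) * dE) ^ 2 - 1)) ^ k) ^ 2) ∧
      (∃ K : ℕ, ∀ k : ℕ, K ≤ k → N 2 k d dE ψ < N 2 (k + 1) d dE ψ)) ∧
    (∀ ψ : Fin 2 → ℂ, ∑ x, ‖ψ x‖ ^ 2 = 1 → ∀ k : ℕ, 4 ≤ k →
      N 2 k 2 2 ψ < N 2 (k + 1) 2 2 ψ) := by
  constructor
  · intro d dE hd hE ψ hψ
    have key : ∀ k : ℕ, 1 ≤ k → N 2 k d dE ψ =
        1 + (lam d dE ^ k) ^ 2 + CC d dE * (1 - lam d dE ^ k) ^ 2 := by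
      intro k hk
      obtain ⟨m, rfl⟩ : ∃ m, k = m + 1 := ⟨k - 1, by omega⟩
      exact N_two hd (by omega) ψ hψ m
    refine ⟨fun k hk => key k hk, ?_⟩
    obtain ⟨h0, h1⟩ := lam_pos hd hE
    have hC := CC_pos (dE := dE) hd
    have hlim := tendsto_pow_atTop_nhds_zero_of_lt_one h0.le h1
    have hpos : 0 < 2 * CC d dE / (2 * (1 + CC d dE)) := by positivity
    obtain ⟨K, hK⟩ := (hlim.eventually (gt_mem_nhds hpos)).exists_forall_of_atTop
    refine ⟨max K 1, fun k hk => ?_⟩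
    rw [key k (le_trans (le_max_right _ _) hk), key (k + 1) (by omega), pow_succ' (lam d dE) k]
    have hq : 0 < lam d dE ^ k := pow_pos h0 k
    refine step hq h0 h1 hC ?_
    have hk' := hK k (le_trans (le_max_left _ _) hk)
    rw [lt_div_iff₀ (by positivity)] at hk'
    have : lam d dE * lam d dE ^ k ≤ lam d dE ^ k := by nlinarith
    nlinarith
  · intro ψ hψ k hk
    have key : ∀ k : ℕ, 1 ≤ k → N 2 k 2 2 ψ =
        1 + (lam 2 2 ^ k) ^ 2 + CC 2 2 * (1 - lam 2 2 ^ k) ^ 2 := by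
      intro k hk
      obtain ⟨m, rfl⟩ : ∃ m, k = m + 1 := ⟨k - 1, by omega⟩
      exact N_two le_rfl (by omega) ψ hψ m
    obtain ⟨h0, h1⟩ := lam_pos (d := 2) (dE := 2) le_rfl le_rfl
    have hC := CC_pos (d := 2) (dE := 2) le_rfl
    have hl : lam 2 2 = 2 / 5 := by unfold lam; norm_num
    have hCC : CC 2 2 = 1 / 27 := by unfold CC; norm_num
    rw [key k (by omega), key (k + 1) (by omega), pow_succ' (lam 2 2) k]
    have hq : 0 < lam 2 2 ^ k := pow_pos h0 k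
    refine step hq h0 h1 hC ?_
    have h4 : lam 2 2 ^ k ≤ lam 2 2 ^ 4 := pow_le_pow_of_le_one h0.le h1.le hk
    rw [hl] at h4 ⊢
    rw [hCC]
    have : ((2 : ℝ) / 5) ^ 4 = 16 / 625 := by norm_num
    rw [this] at h4
    nlinarith

end Pool.Agent.Results.MP_a4cf75_mp.NotMonotone
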